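import Mathlib
import Pool.Agent.H761Z.PlanarSize

set_option autoImplicit false

namespace Pool.Agent.Results.MP_951455_co.ANoSmallFactors

open Pool.Agent.H761Z

/-- `G` has a drawing in the plane: distinct points, edges drawn as simple arcs which pass through
no other vertex, arcs of distinct edges meet only at vertices. -/
def Planar {V : Type} (G : SimpleGraph V) : Prop :=
  ∃ p : V → ℝ × ℝ, Function.Injective p ∧
    ∃ γ : V → V → unitInterval → ℝ × ℝ,
      (∀ u v, G.Adj u v → Continuous (γ u v) ∧ Function.Injective (γ u v) ∧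
          γ u v 0 = p u ∧ γ u v 1 = p v) ∧
      (∀ u v w x, G.Adj u v → γ u v x = p w → (w = u ∧ x = 0) ∨ (w = v ∧ x = 1)) ∧
      (∀ u v u' v' x y, G.Adj u v → G.Adj u' v' → s(u, v) ≠ s(u', v') →
          γ u v x = γ u' v' y → ∃ w, γ u v x = p w)

/-- `G` has a tree decomposition all of whose bags have at most `k + 1` vertices. -/
def TwLE {V : Type} (G : SimpleGraph V) (k : ℕ) : Prop :=
  ∃ r : ℕ, ∃ T : SimpleGraph (Fin r), T.IsTree ∧ ∃ B : Fin r → Finset V,
    (∀ v, ∃ i, v ∈ B i) ∧ (∀ u v, G.Adj u v → ∃ i, u ∈ B i ∧ v ∈ B i) ∧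
    (∀ v, (T.induce {i | v ∈ B i}).Connected) ∧ (∀ i, (B i).card ≤ k + 1)

/-- `G` has a path-partition (the part of `v` is `f v`) with parts of at most `b` vertices. -/
def PpwLE {V : Type} (G : SimpleGraph V) (b : ℕ) : Prop :=
  ∃ f : V → ℕ, (∀ u v, G.Adj u v → f u ≤ f v + 1 ∧ f v ≤ f u + 1) ∧
    ∀ i : ℕ, {v | f v = i}.encard ≤ b

/-- The strong product of two graphs. -/
def strongProd {α β : Type} (A : SimpleGraph α) (B : SimpleGraph β) : SimpleGraph (α × β) where
  Adj x y := x ≠ y ∧ (x.1 = y.1 ∨ A.Adj x.1 y.1) ∧ (x.2 = y.2 ∨ B.Adj x.2 y.2)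
  symm := ⟨fun _ _ h => ⟨h.1.symm, h.2.1.imp Eq.symm SimpleGraph.Adj.symm,
    h.2.2.imp Eq.symm SimpleGraph.Adj.symm⟩⟩
  loopless := ⟨fun _ h => h.1 rfl⟩

theorem result (c : ℕ) :
    ∃ n k b : ℕ, 1 ≤ n ∧ 1 ≤ k ∧ 1 ≤ b ∧ n ≤ k * b ∧ ∃ G : SimpleGraph (Fin n),
      Planar G ∧ TwLE G k ∧ PpwLE G b ∧
      ∀ m : ℕ, m ≤ b → ∀ H : SimpleGraph (Fin m), TwLE H 3 → ∀ l : ℕ,
        ¬ G.IsContained
          (strongProd (strongProd H (SimpleGraph.pathGraph l)) (⊤ : SimpleGraph (Fin c))) := by
  classical
  set L : ℕ := 486 * c ^ 2 + 1 with hL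
  have hpos : 0 < 2 ^ L := by positivity
  let V := PlanarSize.Vx L
  let e : Fin (Fintype.card V) ≃ V := (Fintype.equivFin V).symm
  have hn : 1 ≤ Fintype.card V :=
    Fintype.card_pos_iff.2 ⟨(⟨0, by omega⟩, 0, ⟨0, hpos⟩)⟩
  let G : SimpleGraph (Fin (Fintype.card V)) := (PlanarSize.F L).comap e
  refine ⟨Fintype.card V, Fintype.card V, 3 * 2 ^ L, hn, hn, by omega,
    Nat.le_mul_of_pos_right _ (by omega), G,
      ⟨fun v => PlanarSize.pt (e v), PlanarSize.pt_inj.comp e.injective,
        fun u v => PlanarSize.gam (e u) (e v),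
        fun u v huv => PlanarSize.gam_basic huv,
        fun u v w x huv he => by
          rcases PlanarSize.gam_pt x huv he with ⟨k1, k2⟩ | ⟨k1, k2⟩
          · exact Or.inl ⟨e.injective k1, k2⟩
          · exact Or.inr ⟨e.injective k1, k2⟩,
        fun u v u' v' x y huv huv' hne he => by
          obtain ⟨w, hw⟩ := PlanarSize.gam_cross x y huv huv' (by
            intro hh
            apply hne
            rw [e.injective (congrArg Prod.fst hh), e.injective (congrArg Prod.snd hh)]) he
          exact ⟨e.symm w, by simpa using hw⟩⟩,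
      ⟨1, ⊥, SimpleGraph.IsTree.of_subsingleton, fun _ => Finset.univ, fun v => ⟨0, by simp⟩,
        fun u v _ => ⟨0, by simp⟩,
        fun v => by
          have : Nonempty {i : Fin 1 | v ∈ (Finset.univ : Finset (Fin (Fintype.card V)))} :=
            ⟨⟨0, by simp⟩⟩
          exact SimpleGraph.IsTree.of_subsingleton.connected,
        fun i => by simp⟩,
      ⟨fun v => ((e v).1 : ℕ), fun u v huv => by
          have : (e u).1 = (e v).1 := by
            rcases huv with k | k
            · exact k.1
            · exact k.1.symm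
          simp only [this]
          omega,
        fun i => by
          have : (Finset.univ.filter (fun v => ((e v).1 : ℕ) = i)).card ≤
              (Finset.univ : Finset (Fin 3 × Fin (2 ^ L))).card := by
            apply Finset.card_le_card_of_injOn (fun v => (e v).2)
            · intro v _
              simp
            · intro u hu v hv huv
              have hu' := (Finset.mem_filter.1 hu).2
              have hv' := (Finset.mem_filter.1 hv).2
              apply e.injective
              exact Prod.ext (Fin.ext (hu'.trans hv'.symm)) huv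
          have h2 : {v | ((e v).1 : ℕ) = i} =
              ((Finset.univ.filter (fun v => ((e v).1 : ℕ) = i) : Finset _) : Set _) := by
            ext v
            simp
          rw [h2, Set.encard_coe_eq_coe_finsetCard]
          have h3 : (Finset.univ.filter (fun v => ((e v).1 : ℕ) = i)).card ≤ 3 * 2 ^ L := by
            simpa using this
          exact_mod_cast h3⟩, ?_⟩
  rintro m hm H ⟨r, T, hT, B, b1, b2, b3, b4⟩ l ⟨φ⟩
  have k1 := TwEdges.sum_degree_le H hT B (3 + 1) b1 b2 b3 b4
  have k2 := PlanarSize.count (L := L) H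
    (fun v => ((φ (e.symm v)).1.1, ((φ (e.symm v)).1.2 : ℕ), (φ (e.symm v)).2))
    (by
      intro u v huv
      simp only [Prod.mk.injEq] at huv
      apply e.symm.injective
      apply φ.injective
      exact Prod.ext (Prod.ext huv.1 (Fin.ext huv.2.1)) huv.2.2)
    (by
      intro u v huv
      have h0 : G.Adj (e.symm u) (e.symm v) := by simpa [G] using huv
      have h1 := φ.toHom.map_adj h0
      rcases h1.2.1 with k | k
      · have k' : (φ (e.symm u)).1 = (φ (e.symm v)).1 := k
        simp only [k']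
        exact ⟨Or.inl trivial, by omega, by omega⟩
      · refine ⟨k.2.1, ?_⟩
        rcases k.2.2 with k' | k'
        · have k'' : (φ (e.symm u)).1.2 = (φ (e.symm v)).1.2 := k'
          simp only [k'']
          omega
        · rw [SimpleGraph.pathGraph_adj] at k'
          have k'' : ((φ (e.symm u)).1.2 : ℕ) + 1 = (φ (e.symm v)).1.2 ∨
              ((φ (e.symm v)).1.2 : ℕ) + 1 = (φ (e.symm u)).1.2 := k'
          simp only
          omega)
  rw [Fintype.card_fin] at k1 k2
  have k3 : L * 2 ^ L ≤ 18 * c ^ 2 * (9 * (3 * 2 ^ L)) :=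
    k2.trans (Nat.mul_le_mul_left _ (by omega))
  have k4 : L * 2 ^ L = 18 * c ^ 2 * (9 * (3 * 2 ^ L)) + 2 ^ L := by
    generalize 2 ^ L = N
    rw [hL]
    ring
  omega

end Pool.Agent.Results.MP_951455_co.ANoSmallFactors
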